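import Pool.Agent.Run7.h970.ND.Stm2
import Pool.Agent.Run7.h680.ND.SEP

/-!
# Piece SEP2 of MP_a0ac48_co (second stage of helper970's nine dragon tree project)

Adapted from `Pool.Agent.Run7.h680.ND.t_SEP`: `R` is rooted at `c` and the linear algebra is applied
to the set `insert c X`.
-/

set_option autoImplicit false

namespace Pool.Agent.Run7.h862.ND

open SimpleGraph Pool.Agent.Run7.h970.ND Pool.Agent.Run7.h680.ND

/-- **Piece SEP2.** -/
theorem t_SEP2 : S_SEP2 := by
  classical
  intro V _ T R r x1 X yy hT hR hPar hXR hcX hrc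
  -- the rooting of `T` at `r`
  obtain ⟨pT, lT, hT1, hT2, hT3, hT4⟩ := Pool.Agent.TH87.BD.exists_rooting_at T hT.2
    (fun _ => r) (fun x => hT.1.preconnected x r) (fun _ _ _ => rfl)
  have hTr : ∀ x, pT x = none → x = r := by
    intro x hx
    have h1 := hT2 x hx
    rw [hT4] at h1
    rcases dist_eq_zero_iff_eq_or_not_reachable.1 h1 with h2 | h2
    · exact h2
    · exact absurd (hT.1.preconnected x r) h2
  have hTp : ∀ x ∈ X, pT x = some (yy x) := fun x hx =>
    par_some T r hT pT lT hT1 hTr hT3 x (yy x) (hPar x hx)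
  set FS : Set (Sym2 V) := {e | ∃ x ∈ X, e = s(x, yy x)} with hFS
  set P := T.deleteEdges FS with hPdef
  have hP : ∀ v, P.Reachable r v ∨ ∃ x ∈ X, P.Reachable x v := by
    have key : ∀ n v, lT v = n → (P.Reachable r v ∨ ∃ x ∈ X, P.Reachable x v) := by
      intro n
      induction n using Nat.strong_induction_on with
      | _ n ih =>
        intro v hv
        cases hp : pT v with
        | none => exact Or.inl (by rw [hTr v hp])
        | some w =>
          obtain ⟨ha, hl⟩ := hT1 v w hp
          by_cases hvX : v ∈ X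
          · exact Or.inr ⟨v, hvX, Reachable.refl v⟩
          · have hadj : P.Adj w v := by
              rw [hPdef, deleteEdges_adj]
              refine ⟨ha.symm, ?_⟩
              rintro ⟨x, hx, he⟩
              have h5 := hTp x hx
              rcases Sym2.eq_iff.1 he with ⟨e1, e2⟩ | ⟨e1, e2⟩
              · rw [← e2, ← e1] at h5
                have := (hT1 w v h5).2
                omega
              · exact hvX (e2 ▸ hx)
            rcases ih (lT w) (by omega) w rfl with h5 | ⟨x, hx, h5⟩
            · exact Or.inl (h5.trans hadj.reachable)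
            · exact Or.inr ⟨x, hx, h5.trans hadj.reachable⟩
    exact fun v => key _ v rfl
  -- the rooting of `R` at `x1`
  set C : Set V := {v | R.Reachable x1 v} with hCdef
  set ro : V → V := fun v => if R.Reachable x1 v then x1 else (R.connectedComponentMk v).out
    with hro
  obtain ⟨pR, lR, hR1, hR2, hR3, hR4⟩ := Pool.Agent.TH87.BD.exists_rooting_at R hR ro
    (by
      intro v
      by_cases hv : R.Reachable x1 v
      · simp only [hro, if_pos hv]
        exact hv.symm
      · simp only [hro, if_neg hv]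
        exact (ConnectedComponent.exact (R.connectedComponentMk v).out_eq).symm)
    (by
      intro v w hvw
      by_cases hv : R.Reachable x1 v
      · have hw : R.Reachable x1 w := hv.trans hvw
        simp only [hro, if_pos hv, if_pos hw]
      · have hw : ¬ R.Reachable x1 w := fun hw => hv (hw.trans hvw.symm)
        simp only [hro, if_neg hv, if_neg hw]
        rw [ConnectedComponent.sound hvw])
  set pp : V → V := fun v => (pR v).getD v with hpp
  have hroC : ∀ v ∈ C, ro v = x1 := by
    intro v hv
    have hv' : R.Reachable x1 v := hv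
    simp only [hro, if_pos hv']
  have hpR : ∀ z, z ∈ C → z ≠ x1 → pR z = some (pp z) := by
    intro z hz hne
    cases hp : pR z with
    | some w => simp [hpp, hp]
    | none =>
      exfalso
      have h1 := hR2 z hp
      rw [hR4, hroC z hz] at h1
      rcases dist_eq_zero_iff_eq_or_not_reachable.1 h1 with h2 | h2
      · exact hne h2
      · exact h2 (show R.Reachable x1 z from hz).symm
  have hx1C : x1 ∈ C := Reachable.refl x1
  have hpx1 : pR x1 = none := by
    cases hp : pR x1 with
    | none => rfl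
    | some w =>
      exfalso
      have h1 := (hR1 x1 w hp).2
      have h2 := hR4 x1
      rw [hroC x1 hx1C, SimpleGraph.dist_self] at h2
      omega
  have hl : ∀ z, z ∈ C → z ≠ x1 → lR (pp z) < lR z := by
    intro z hz hne
    have := (hR1 z (pp z) (hpR z hz hne)).2
    omega
  have hppC : ∀ z, z ∈ C → z ≠ x1 → pp z ∈ C := by
    intro z hz hne
    exact (show R.Reachable x1 z from hz).trans (hR1 z (pp z) (hpR z hz hne)).1.reachable
  obtain ⟨Z, hZ1, hZ2, hZ3⟩ := sepcore P r x1 (insert x1 X) C pp lR (Finset.mem_insert_self _ _)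
    (by
      intro x hx
      rcases Finset.mem_insert.1 hx with rfl | hx
      · exact hx1C
      · exact hXR x hx)
    (by
      intro v
      rcases hP v with h1 | ⟨x, hx, h1⟩
      · exact Or.inl h1
      · exact Or.inr ⟨x, Finset.mem_insert_of_mem hx, h1⟩) hl hppC
  have hinj : ∀ z z', (z ∈ C ∧ z ≠ x1) → (z' ∈ C ∧ z' ≠ x1) → s(z, pp z) = s(z', pp z') →
      z = z' := by
    intro z z' hz hz' e
    rcases Sym2.eq_iff.1 e with ⟨e1, -⟩ | ⟨e1, e2⟩
    · exact e1
    · exfalso
      have h1 := hl z hz.1 hz.2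
      have h2 := hl z' hz'.1 hz'.2
      rw [e2] at h1
      rw [← e1] at h2
      omega
  set Y : Finset (Sym2 V) := Z.image (fun z => s(z, pp z)) with hY
  have hYcoe : (Y : Set (Sym2 V)) = {e | ∃ z, z ∈ Z ∧ s(z, pp z) = e} := by
    ext e
    simp [hY]
  have hYcard : Y.card = Z.card := by
    rw [hY]
    refine Finset.card_image_of_injOn ?_
    intro z hz z' hz' e
    exact hinj z z' (hZ1 z hz) (hZ1 z' hz') e
  have hYR : (Y : Set (Sym2 V)) ⊆ R.edgeSet := by
    rw [hYcoe]
    rintro e ⟨z, hz, rfl⟩
    exact (hR1 z (pp z) (hpR z (hZ1 z hz).1 (hZ1 z hz).2)).1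
  -- counting the edges of `P`
  have hTcard : T.edgeSet.ncard + 1 = Fintype.card V := by
    have := (isTree_iff_connected_and_card.1 hT).2
    rw [Nat.card_eq_fintype_card (α := V)] at this
    exact this
  have hFSsub : FS ⊆ T.edgeSet := by
    rintro e ⟨x, hx, rfl⟩
    exact (hPar x hx).1
  have hFScard : FS.ncard = X.card := by
    have h1 : FS = ((X.image fun x => s(x, yy x) : Finset (Sym2 V)) : Set (Sym2 V)) := by
      ext e
      simp only [hFS, Finset.coe_image, Set.mem_image, Finset.mem_coe]
      constructor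
      · rintro ⟨x, hx, rfl⟩
        exact ⟨x, hx, rfl⟩
      · rintro ⟨x, hx, rfl⟩
        exact ⟨x, hx, rfl⟩
    rw [h1, Set.ncard_coe_finset]
    refine Finset.card_image_of_injOn ?_
    intro x hx x' hx' e
    rcases Sym2.eq_iff.1 e with ⟨e1, -⟩ | ⟨e1, e2⟩
    · exact e1
    · exfalso
      have h1 := (hT1 x _ (hTp x hx)).2
      have h2 := (hT1 x' _ (hTp x' hx')).2
      rw [e2] at h1
      rw [← e1] at h2
      omega
  have hPcard : P.edgeSet.ncard + X.card + 1 = Fintype.card V := by
    have h1 : P.edgeSet = T.edgeSet \ FS := by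
      rw [hPdef, edgeSet_deleteEdges]
    have h2 : P.edgeSet.ncard = T.edgeSet.ncard - FS.ncard := by
      rw [h1]
      exact Set.ncard_sdiff hFSsub (Set.toFinite _)
    have h3 : FS.ncard ≤ T.edgeSet.ncard := Set.ncard_le_ncard hFSsub (Set.toFinite _)
    omega
  set T' := P ⊔ fromEdgeSet (Y : Set (Sym2 V)) with hT'
  have hconn : ∀ v, (T' ⊔ edge r x1).Reachable r v := by
    rw [hT', hYcoe]
    exact hZ2
  have hT'card : T'.edgeSet.ncard ≤ P.edgeSet.ncard + Y.card := by
    have h1 : T'.edgeSet ⊆ P.edgeSet ∪ (Y : Set (Sym2 V)) := by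
      intro e he
      rw [hT', edgeSet_sup, edgeSet_fromEdgeSet] at he
      rcases he with he | he
      · exact Or.inl he
      · exact Or.inr he.1
    refine (Set.ncard_le_ncard h1 (Set.toFinite _)).trans ((Set.ncard_union_le _ _).trans ?_)
    rw [Set.ncard_coe_finset]
  have hrc' : T'.Reachable r x1 := hrc.mono le_sup_left
  have hT'c : T'.Connected := by
    have : Nonempty V := ⟨r⟩
    have key : ∀ v, T'.Reachable r v := by
      intro v
      rcases reach_edge T' r x1 r v (hconn v) with h1 | ⟨-, h1⟩ | ⟨-, h2⟩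
      · exact h1
      · exact hrc'.trans h1
      · exact h2
    exact ⟨fun x y => (key x).symm.trans (key y)⟩
  have hge0 : Fintype.card V ≤ T'.edgeSet.ncard + 1 := by
    have h1 := hT'c.card_vert_le_card_edgeSet_add_one
    rw [Nat.card_eq_fintype_card (α := V)] at h1
    exact h1
  have hge : X.card ≤ Y.card := by omega
  -- the graph `A'`
  set A' := (fromEdgeSet {e | ∃ z, (z ∈ C ∧ z ≠ x1) ∧ z ∉ Z ∧ s(z, pp z) = e}) with hA'
  have hA'card : A'.edgeSet.ncard + Z.card + 1 ≤ C.ncard := by
    have h1 : A'.edgeSet ⊆ (fun z => s(z, pp z)) '' ((C \ {x1}) \ (Z : Set V)) := by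
      intro e he
      rw [hA', edgeSet_fromEdgeSet] at he
      obtain ⟨z, hz, hzZ, h2⟩ := he.1
      exact ⟨z, ⟨⟨hz.1, hz.2⟩, hzZ⟩, h2⟩
    have h2 : (Z : Set V) ⊆ C \ {x1} := fun z hz => ⟨(hZ1 z hz).1, (hZ1 z hz).2⟩
    have h3 : ((C \ {x1}) \ (Z : Set V)).ncard = (C \ {x1}).ncard - Z.card := by
      rw [Set.ncard_sdiff h2 (Set.toFinite _), Set.ncard_coe_finset]
    have h4 : Z.card ≤ (C \ {x1}).ncard := by
      rw [← Set.ncard_coe_finset]
      exact Set.ncard_le_ncard h2 (Set.toFinite _)
    have h5 : (C \ {x1}).ncard + 1 = C.ncard :=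
      Set.ncard_sdiff_singleton_add_one hx1C (Set.toFinite _)
    have h6 : A'.edgeSet.ncard ≤ ((C \ {x1}) \ (Z : Set V)).ncard :=
      (Set.ncard_le_ncard h1 (Set.toFinite _)).trans (Set.ncard_image_le (Set.toFinite _))
    omega
  have hmain : ∀ W : Finset V, (∀ v ∈ C,
      (A' ⊔ fromEdgeSet {e | ∃ w ∈ W, e = s(w, x1)}).Reachable v x1) → Z.card ≤ W.card := by
    intro W hW
    have := count_star A' C x1 W hx1C hW
    omega
  have hstar : ∀ (W : Finset V), ∀ w ∈ W,
      (A' ⊔ fromEdgeSet {e | ∃ w ∈ W, e = s(w, x1)}).Reachable w x1 := by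
    intro W w hw
    by_cases hwx : w = x1
    · rw [hwx]
    · refine Adj.reachable ?_
      rw [sup_adj, fromEdgeSet_adj]
      exact Or.inr ⟨⟨w, hw, rfl⟩, hwx⟩
  have hle : Z.card ≤ X.card := by
    apply hmain
    intro v hv
    obtain ⟨x, hx, h1⟩ := hZ3 v hv
    refine (h1.mono le_sup_left).trans ?_
    rcases Finset.mem_insert.1 hx with rfl | hx
    · exact Reachable.refl _
    · exact hstar _ x hx
  have hYX : Y.card = X.card := by omega
  have hT'tree : T'.IsTree := by
    rw [isTree_iff_connected_and_card]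
    refine ⟨hT'c, ?_⟩
    rw [Nat.card_eq_fintype_card (α := V)]
    have h3 : T'.edgeSet.ncard + 1 = Fintype.card V := by omega
    exact h3
  -- separation
  have hwalk : ∀ u v, (R.deleteEdges (Y : Set (Sym2 V))).Reachable u v → u ∈ C →
      A'.Reachable u v := by
    intro u v huv
    obtain ⟨w⟩ := huv
    induction w with
    | nil => exact fun _ => Reachable.refl _
    | cons hadj q ih =>
      rename_i u v' w'
      intro hu
      rw [deleteEdges_adj] at hadj
      have hv : v' ∈ C := (show R.Reachable x1 u from hu).trans hadj.1.reachable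
      refine Reachable.trans (Adj.reachable ?_) (ih hv)
      rw [hA', fromEdgeSet_adj]
      refine ⟨?_, hadj.1.ne⟩
      have hno : ∀ a b, pR a = some b → a ∈ C → s(a, b) ∉ (Y : Set (Sym2 V)) →
          ∃ z, (z ∈ C ∧ z ≠ x1) ∧ z ∉ Z ∧ s(z, pp z) = s(a, b) := by
        intro a b hab haC hnot
        have hb : pp a = b := by simp [hpp, hab]
        have hax : a ≠ x1 := by
          rintro rfl
          rw [hpx1] at hab
          exact absurd hab (by simp)
        refine ⟨a, ⟨haC, hax⟩, ?_, by rw [hb]⟩
        intro haZ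
        apply hnot
        rw [hYcoe]
        exact ⟨a, haZ, by rw [hb]⟩
      rcases hR3 u v' hadj.1 with h1 | h1
      · exact hno u v' h1 hu hadj.2
      · have := hno v' u h1 hv (by rw [Sym2.eq_swap]; exact hadj.2)
        rw [Sym2.eq_swap] at this
        exact this
  have hsep0 : ∀ x ∈ insert x1 X, ∀ x' ∈ X, x ≠ x' →
      ¬ (R.deleteEdges (Y : Set (Sym2 V))).Reachable x x' := by
    intro x hx x' hx' hne hre
    have hxC : x ∈ C := by
      rcases Finset.mem_insert.1 hx with rfl | hx
      · exact hx1C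
      · exact hXR x hx
    have h1 : A'.Reachable x x' := hwalk x x' hre hxC
    have h2 : Z.card ≤ (X.erase x').card := by
      apply hmain
      have hx0 : (A' ⊔ fromEdgeSet {e | ∃ w ∈ (X.erase x'), e = s(w, x1)}).Reachable
          x x1 := by
        rcases Finset.mem_insert.1 hx with hxx | hxx
        · rw [hxx]
        · exact hstar _ x (Finset.mem_erase.2 ⟨hne, hxx⟩)
      intro v hv
      obtain ⟨w, hw, h3⟩ := hZ3 v hv
      refine (h3.mono le_sup_left).trans ?_
      rcases Finset.mem_insert.1 hw with hwx | hwX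
      · rw [hwx]
      · by_cases hwx' : w = x'
        · rw [hwx']
          exact (h1.symm.mono le_sup_left).trans hx0
        · exact hstar _ w (Finset.mem_erase.2 ⟨hwx', hwX⟩)
    have h3 : (X.erase x').card + 1 = X.card := Finset.card_erase_add_one hx'
    omega
  refine ⟨Y, hYR, hYX, ?_, ?_, ?_, hT'tree⟩
  · intro e he z hz
    have he' : e ∈ (Y : Set (Sym2 V)) := he
    rw [hYcoe] at he'
    obtain ⟨z', hz', rfl⟩ := he'
    rcases Sym2.mem_iff.1 hz with rfl | rfl
    · exact (hZ1 _ hz').1
    · exact hppC z' (hZ1 _ hz').1 (hZ1 _ hz').2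
  · intro x hx x' hx' hne
    exact hsep0 x (Finset.mem_insert_of_mem hx) x' hx' hne
  · intro x hx
    exact hsep0 x1 (Finset.mem_insert_self _ _) x hx (fun e => hcX (e ▸ hx))

end Pool.Agent.Run7.h862.ND
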